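import Pool.Agent.W2helper68.CD.Main
import Pool.Agent.W2helper68.CD.Neg2
import Pool.Agent.W2helper68.CD.Neg3

/-!
# The exact range of `(k, lam)` for the conjecture on disjoint orbit representatives

`IsCyclicDesign v k lam Bs` : `Bs` is the block multiset of a cyclic `(v, k, lam)`-design on
`ZMod v`.  `HasDisjointReps Bs` : one can choose one block from each block orbit so that the chosen
blocks are pairwise disjoint.

For all `k ≥ lam + 1 ≥ 2` the asymptotic statement all cyclic `(v, k, lam)`-designs with `v` large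
have disjoint orbit representatives is true if and only if `k ≥ lam + 2`.
-/

set_option autoImplicit false

namespace Pool.Agent.Results.MP_1dd1a8_co.ExactRange

open Pool.Agent.R117.Cyc

theorem result (k lam : ℕ) (hlam : 1 ≤ lam) (hk : lam + 1 ≤ k) :
    (∃ v0 : ℕ, ∀ v : ℕ, v0 ≤ v → 1 ≤ v → ∀ Bs : Multiset (Finset (ZMod v)),
      IsCyclicDesign v k lam Bs → HasDisjointReps Bs) ↔ lam + 2 ≤ k := by
  constructor
  · rintro ⟨v0, hv0⟩
    by_contra hcon
    have hk' : k = lam + 1 := by omega
    subst hk'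
    rcases Nat.lt_or_ge lam 2 with h | h
    · have : lam = 1 := by omega
      subst this
      obtain ⟨v, h1, h2, Bs, h3, h4⟩ := Pool.Agent.W2helper68.CD.Neg3.neg_two v0
      exact h4 (hv0 v h1 h2 Bs h3)
    · obtain ⟨v, h1, h2, Bs, h3, h4⟩ :=
        Pool.Agent.W2helper68.CD.Neg.neg_ge_three (lam + 1) (by omega) v0
      exact h4 (hv0 v h1 h2 Bs h3)
  · intro h
    obtain ⟨v0, hv0⟩ := Pool.Agent.W2helper68.CD.positive k lam h
    exact ⟨v0, fun v hv _ Bs hB => hv0 v hv Bs hB⟩

end Pool.Agent.Results.MP_1dd1a8_co.ExactRange
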